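import Pool.Agent.R413.TI.MatG
import Pool.Agent.R413.TI.RootG
import Pool.Agent.R413.TI.RankG
import Pool.Agent.R413.TI.SplG
import Pool.Agent.R413.TI.Good
import Pool.Agent.R413.TI.LawH
import Pool.Agent.Y948.CQ.C2A
import Pool.Agent.R413.TI.Trg
import Pool.Agent.R413.TI.DtgMine

/-!
# Twists with prescribed 2-isogeny Selmer groups, for all curves with a rational 2-torsion point

For the curve `E : y² = x³ + a x² + b x` with `b (a² - 4 b) ≠ 0` let `N1 = 2 ^ f1`, `N2 = 2 ^ f2` be the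
numbers of the problem (`Classes`) for `E` and for the 2-isogenous curve, so `2 ^ s = N1 N2 / 4`, and let
`E_D : y² = x³ + a D x² + b D² x` be the quadratic twist by `D`.

Let `D` be the product of a finite set `S` of split primes of `E`: primes `p ≡ 1 mod 8` such that the odd
prime factors `l` of `b (a² - 4 b)` are different from `p` and `p` is a square modulo `l` (then `p` splits
completely in the field generated by the square roots of `-1`, `2` and of the `l`). Then `N1` and `N2` for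
`E_D` are those for `E` times `2 ^ corank`, with the same corank of the matrix `mat a b S` over the field
with two elements, given by the quadratic symbols of the primes of `S` and by the symbols `root` of the
roots of `x² + a x + b` modulo these primes. So `s(E_D) = s(E) + 2 corank`, and if `s(E) = 0` then
`r = s = 0` for `E_D` if and only if the matrix is nonsingular.

Statistics, for `n` random distinct primes `p_i ≤ X_i` in residue classes modulo `M` of split primes: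
* the number of the tuples whose product leaves `N1` and `N2` unchanged is `prob (n - 1)` times the number
  of the tuples with an odd number of `root = 1`, plus `prob (n - 2)` times the number of the tuples with a
  positive even number, with error at most `A z^(-1/24) #box`, uniformly for all curves with bad primes
  dividing `M`;
* if `q` is one fixed split prime with `root = 1`, and an odd number of the classes are nonsquares modulo
  `q`, then for the twists by `q p_1 ⋯ p_n` the same holds with the proportion `prob (n - 1) > 0.4194`,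
  whatever the symbols `root` of the `p_i` are. If `s(E) = 0`, then the proportion of the `q p_1 ⋯ p_n`
  with `r = s = 0` tends to `prob (n - 1)`.

The curves `y² = x³ + a x² - x` with `a > 0` and `a² + 4` prime have `s = 0`; for `a = 1` (`X_0(20)`) the
prime `q = 41` has the property.

Parts of the proof are due to helper316 (solubility at the split primes), helper126 (symbols of the roots),
helper258 (indices and ranks), helper799 (the isogenies), helper64 and helper397 (the classes of points),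
helper515 (solubility at the good primes) and helper338 (random graphs of quadratic symbols).
-/

set_option autoImplicit false

open scoped Classical
open Finset

namespace Pool.Agent.Results.MP_e2b281_nt.AllCurvesRandomTwists

/-- the quartic `N² = b₁ M⁴ + a M² e² + b₂ e⁴` has a solution over `K` with `(M, e) ≠ (0, 0)` -/
def Solvable (K : Type) [Field K] (a b₁ b₂ : ℤ) : Prop :=
  ∃ N M e : K, (M ≠ 0 ∨ e ≠ 0) ∧
    N ^ 2 = (b₁ : K) * M ^ 4 + (a : K) * M ^ 2 * e ^ 2 + (b₂ : K) * e ^ 4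

/-- the squarefree `b₁ ∣ b` whose quartic is everywhere locally solvable -/
def Classes (a b : ℤ) : Set ℤ := {b₁ | Squarefree b₁ ∧ b₁ ∣ b ∧ Solvable ℝ a b₁ (b / b₁) ∧
  ∀ (p : ℕ) [Fact p.Prime], Solvable ℚ_[p] a b₁ (b / b₁)}

/-- the curve `y² = x³ + a x² + b x` -/
def Curve (a b : ℤ) : WeierstrassCurve ℚ := ⟨0, (a : ℚ), 0, (b : ℚ), 0⟩

/-- the rank of the curve -/
noncomputable def rank (a b : ℤ) : ℕ := Module.finrank ℤ (Curve a b).toAffine.Point

/-- the number `2 ^ f1` of the classes -/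
noncomputable def N1 (a b : ℤ) : ℕ := (Classes a b).ncard

/-- the number `2 ^ f2` of the classes for the 2-isogenous curve -/
noncomputable def N2 (a b : ℤ) : ℕ := (Classes (-2 * a) (a ^ 2 - 4 * b)).ncard

/-- the exponent `f1` -/
noncomputable def f1 (a b : ℤ) : ℕ := Nat.log 2 (N1 a b)

/-- the exponent `f2` -/
noncomputable def f2 (a b : ℤ) : ℕ := Nat.log 2 (N2 a b)

/-- the statement of the problem for the curve -/
def Parity (a b : ℤ) : Prop := Even (rank a b + f1 a b + f2 a b)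

/-- `r = s = 0` -/
def Zero (a b : ℤ) : Prop := rank a b = 0 ∧ N1 a b * N2 a b = 4

/-- `p ≡ 1 mod 8`, and all the odd prime factors of `b (a² - 4 b)` are squares modulo `p` -/
def SplitPrime (a b : ℤ) (p : ℕ) : Prop := p.Prime ∧ p % 8 = 1 ∧ ∀ l : ℕ, l.Prime → l ≠ 2 →
  (l : ℤ) ∣ b * (a ^ 2 - 4 * b) → ¬ l ∣ p ∧ IsSquare ((p : ℕ) : ZMod l)

/-- `1` if `m` is not a square modulo `p`, and `0` if it is -/
noncomputable def nonsq (p m : ℕ) : ZMod 2 := if IsSquare (m : ZMod p) then 0 else 1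

/-- `0` if a root of `x² + a x + b` modulo `p` is a square modulo `p`, otherwise `1` -/
noncomputable def root (a b : ℤ) (p : ℕ) : ZMod 2 :=
  if ∃ e : ZMod p, e ^ 2 + (a : ZMod p) * e + (b : ZMod p) = 0 ∧ IsSquare e then 0 else 1

/-- the matrix over the field with two elements, with rows and columns indexed by the primes of `S` -/
noncomputable def mat (a b : ℤ) (S : Finset ℕ) : Matrix S S (ZMod 2) := Matrix.of fun i j =>
  if i = j then root a b i + ∑ l ∈ S.erase (i : ℕ), nonsq i l else nonsq i j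

/-- its corank -/
noncomputable def corank (a b : ℤ) (S : Finset ℕ) : ℕ := S.card - (mat a b S).rank

/-- the product of the primes of `S` -/
def D (S : Finset ℕ) : ℤ := ((∏ p ∈ S, p : ℕ) : ℤ)

/-- the twist by `D S` has the same numbers of classes -/
def Unchanged (a b : ℤ) (S : Finset ℕ) : Prop :=
  N1 (a * D S) (b * D S ^ 2) = N1 a b ∧ N2 (a * D S) (b * D S ^ 2) = N2 a b

/-- the tuples of distinct primes `p i ≤ X i`, `p i ≡ α i mod M` -/
noncomputable def box {n : ℕ} (M : ℕ) (α X : Fin n → ℕ) : Finset (Fin n → ℕ) :=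
  (Fintype.piFinset fun i => (range (X i + 1)).filter fun p => p.Prime ∧ p % M = α i % M).filter
    fun p => Function.Injective p

/-- the set of the primes of a tuple -/
noncomputable def img {n : ℕ} (p : Fin n → ℕ) : Finset ℕ := univ.image p

/-- the number of the primes of a tuple with `root = 1` -/
noncomputable def ones {n : ℕ} (a b : ℤ) (p : Fin n → ℕ) : ℕ :=
  (univ.filter fun i => root a b (p i) ≠ 0).card

/-- the proportion of the nonsingular matrices among the symmetric `m × m` matrices over the field with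
two elements -/
noncomputable def prob (m : ℕ) : ℝ := ∏ i ∈ range ((m + 1) / 2), (1 - (1 / 2 : ℝ) ^ (2 * i + 1))

section proof

open Pool.Agent.R413.TI

theorem n1_eq {a b : ℤ} (hb : b ≠ 0) (hd : a ^ 2 - 4 * b ≠ 0) {S : Finset ℕ} (hS : SS a b S) :
    N1 (a * D S) (b * D S ^ 2) = N1 a b * 2 ^ corank a b S := by
  have h1 := ncardG good splg hb hS (rootG hb hd hS)
  rw [card_kerG] at h1
  exact h1

theorem corank_iso {a b : ℤ} (hb : b ≠ 0) (hd : a ^ 2 - 4 * b ≠ 0) {S : Finset ℕ} (hS : SS a b S) :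
    corankG (fe (-2 * a) (a ^ 2 - 4 * b)) S = corankG (fe a b) S := by
  have : matG (fe (-2 * a) (a ^ 2 - 4 * b)) S = matG (fe a b) S := by
    ext i j
    unfold matG
    rw [Matrix.of_apply, Matrix.of_apply, fe_iso hb hd hS i.2]
  unfold corankG
  rw [this]

theorem hd' {a b : ℤ} (hb : b ≠ 0) : (-2 * a) ^ 2 - 4 * (a ^ 2 - 4 * b) ≠ 0 := by
  intro h
  apply hb
  have : 16 * b = 0 := by linear_combination h
  omega

theorem n2_eq {a b : ℤ} (hb : b ≠ 0) (hd : a ^ 2 - 4 * b ≠ 0) {S : Finset ℕ} (hS : SS a b S) :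
    N2 (a * D S) (b * D S ^ 2) = N2 a b * 2 ^ corank a b S := by
  have h1 := ncardG good splg hd (ss_iso hS) (rootG hd (hd' hb) (ss_iso hS))
  rw [card_kerG, corank_iso hb hd hS] at h1
  have e1 : -2 * (a * D S) = -2 * a * D S := by ring
  have e2 : (a * D S) ^ 2 - 4 * (b * D S ^ 2) = (a ^ 2 - 4 * b) * D S ^ 2 := by ring
  unfold N2
  rw [e1, e2]
  exact h1

theorem one_mem {a b : ℤ} : (1 : ℤ) ∈ Classes a b := by
  refine ⟨squarefree_one, one_dvd b, ⟨1, 1, 0, Or.inl one_ne_zero, ?_⟩, fun p hp =>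
    ⟨1, 1, 0, Or.inl one_ne_zero, ?_⟩⟩ <;> simp

theorem n1_pos {a b : ℤ} (hb : b ≠ 0) : N1 a b ≠ 0 := by
  unfold N1
  have h : (Classes a b).Finite := CL_finite a hb
  exact ((Set.ncard_pos h).2 ⟨1, one_mem⟩).ne'

theorem n2_pos {a b : ℤ} (hd : a ^ 2 - 4 * b ≠ 0) : N2 a b ≠ 0 := n1_pos hd

theorem log_mul {m : ℕ} (hm : m ≠ 0) (k : ℕ) : Nat.log 2 (m * 2 ^ k) = Nat.log 2 m + k := by
  induction k with
  | zero => simp
  | succ k ih =>
    rw [pow_succ, ← mul_assoc, Nat.log_mul_base (by norm_num) (mul_ne_zero hm (by positivity)), ih]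
    rfl

theorem rank_bd {a b : ℤ} (hb : b ≠ 0) (hd : a ^ 2 - 4 * b ≠ 0) :
    4 * 2 ^ rank a b ≤ N1 a b * N2 a b :=
  rank_boundG hb hd (CL_finite a hb) (CL_finite _ hd)

theorem D_ne {a b : ℤ} {S : Finset ℕ} (hS : SS a b S) : D S ≠ 0 :=
  (dG_pos hS (Finset.Subset.refl S)).ne'

theorem unchanged_iff {a b : ℤ} (hb : b ≠ 0) (hd : a ^ 2 - 4 * b ≠ 0) {S : Finset ℕ}
    (hS : SS a b S) : Unchanged a b S ↔ corank a b S = 0 := by
  unfold Unchanged
  rw [n1_eq hb hd hS, n2_eq hb hd hS]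
  constructor
  · rintro ⟨h, -⟩
    by_contra h0
    have h1 : 1 < 2 ^ corank a b S := Nat.one_lt_two_pow h0
    have h2 : 0 < N1 a b := Nat.pos_of_ne_zero (n1_pos hb)
    nlinarith
  · intro h
    rw [h, pow_zero, mul_one, mul_one]
    exact ⟨rfl, rfl⟩

theorem zero_iff {a b : ℤ} (hb : b ≠ 0) (hd : a ^ 2 - 4 * b ≠ 0) (h4 : N1 a b * N2 a b = 4)
    {S : Finset ℕ} (hS : SS a b S) : Zero (a * D S) (b * D S ^ 2) ↔ corank a b S = 0 := by
  have hD := D_ne hS
  have hb' : b * D S ^ 2 ≠ 0 := mul_ne_zero hb (pow_ne_zero 2 hD)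
  have hdd : (a * D S) ^ 2 - 4 * (b * D S ^ 2) ≠ 0 := by
    have e2 : (a * D S) ^ 2 - 4 * (b * D S ^ 2) = (a ^ 2 - 4 * b) * D S ^ 2 := by ring
    rw [e2]
    exact mul_ne_zero hd (pow_ne_zero 2 hD)
  have hN : N1 (a * D S) (b * D S ^ 2) * N2 (a * D S) (b * D S ^ 2) =
      4 * (2 ^ corank a b S) ^ 2 := by
    rw [n1_eq hb hd hS, n2_eq hb hd hS, ← h4]
    ring
  unfold Zero
  rw [hN]
  constructor
  · rintro ⟨-, h⟩
    by_contra h0
    have h1 : 1 < 2 ^ corank a b S := Nat.one_lt_two_pow h0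
    nlinarith
  · intro h
    have h1 := rank_bd hb' hdd
    rw [hN, h] at h1
    refine ⟨?_, by rw [h]; norm_num⟩
    by_contra h0
    have h2 : 1 < 2 ^ rank (a * D S) (b * D S ^ 2) := Nat.one_lt_two_pow h0
    omega

theorem zero_parity {a b : ℤ} (hb : b ≠ 0) (h : Zero a b) :
    Parity a b := by
  obtain ⟨h1, h2⟩ := h
  have h3 := Nat.pos_of_ne_zero (n1_pos (a := a) hb)
  have h4 : N1 a b ∣ 4 := Dvd.intro _ h2
  have h5 : N1 a b ≤ 4 := Nat.le_of_dvd (by norm_num) h4
  unfold Parity f1 f2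
  rw [h1]
  have h6 : N1 a b = 1 ∧ N2 a b = 4 ∨ N1 a b = 2 ∧ N2 a b = 2 ∨ N1 a b = 4 ∧ N2 a b = 1 := by
    have : N1 a b = 1 ∨ N1 a b = 2 ∨ N1 a b = 3 ∨ N1 a b = 4 := by omega
    rcases this with h | h | h | h
    · rw [h] at h2
      exact Or.inl ⟨h, by omega⟩
    · rw [h] at h2
      exact Or.inr (Or.inl ⟨h, by omega⟩)
    · rw [h] at h2
      omega
    · rw [h] at h2
      exact Or.inr (Or.inr ⟨h, by omega⟩)
  have l1 : Nat.log 2 1 = 0 := by norm_num
  have l2 : Nat.log 2 2 = 1 := by norm_num [Nat.log]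
  have l4 : Nat.log 2 4 = 2 := Nat.log_pow (b := 2) (by norm_num) 2
  rcases h6 with ⟨h7, h8⟩ | ⟨h7, h8⟩ | ⟨h7, h8⟩
  · rw [h7, h8, l1, l4]
    decide
  · rw [h7, h8, l2]
    decide
  · rw [h7, h8, l1, l4]
    decide

theorem fin_iff {a b : ℤ} {S : Finset ℕ} (h : ∀ p ∈ S, SplitPrime a b p) : SS a b S := h

theorem mem_box {n : ℕ} {M : ℕ} {α X : Fin n → ℕ} {p : Fin n → ℕ} (h : p ∈ box M α X) :
    Function.Injective p ∧ ∀ i, (p i).Prime ∧ p i % M = α i % M := by
  unfold box at h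
  rw [mem_filter, Fintype.mem_piFinset] at h
  exact ⟨h.2, fun i => (mem_filter.1 (h.1 i)).2⟩

theorem split_of {a b : ℤ} {M : ℕ} (hM8 : 8 ∣ M)
    (hbad : ∀ l : ℕ, l.Prime → (l : ℤ) ∣ b * (a ^ 2 - 4 * b) → l ∣ M) {α p : ℕ} (hα : α.Coprime M)
    (hα8 : α % 8 = 1) (hs : ∀ l : ℕ, l.Prime → l ≠ 2 → (l : ℤ) ∣ b * (a ^ 2 - 4 * b) →
      IsSquare ((α : ℕ) : ZMod l)) (hp : p.Prime) (h : p % M = α % M) : SplitPrime a b p := by
  refine ⟨hp, ?_, fun l hl hl2 hlb => ?_⟩
  · have h1 : p ≡ α [MOD 8] := Nat.ModEq.of_dvd hM8 h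
    have h2 : p % 8 = α % 8 := h1
    omega
  · have hlM := hbad l hl hlb
    have h1 : p ≡ α [MOD l] := Nat.ModEq.of_dvd hlM h
    constructor
    · intro h2
      have h3 : l ∣ α := (h1.dvd_iff dvd_rfl).1 h2
      have h4 := Nat.dvd_gcd h3 hlM
      rw [hα] at h4
      exact hl.one_lt.ne' (Nat.dvd_one.1 h4)
    · rw [(ZMod.natCast_eq_natCast_iff p α l).2 h1]
      exact hs l hl hl2 hlb

/-- the law -/
theorem law {n : ℕ} (hn : 0 < n) {M : ℕ} (hM : 0 < M) (hM8 : 8 ∣ M) (α : Fin n → ℕ)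
    (hα : ∀ i, (α i).Coprime M ∧ α i % 8 = 1 ∧
      ∀ l : ℕ, l.Prime → l ≠ 2 → l ∣ M → IsSquare ((α i : ℕ) : ZMod l)) :
    ∃ A : ℝ, 0 ≤ A ∧ ∀ a b : ℤ, b ≠ 0 → a ^ 2 - 4 * b ≠ 0 →
      (∀ l : ℕ, l.Prime → (l : ℤ) ∣ b * (a ^ 2 - 4 * b) → l ∣ M) →
      ∀ (X : Fin n → ℕ) (z : ℕ), 2 ≤ z → (∀ i, z ≤ X i) →
        (∀ i, Real.log (X i) ≤ (z : ℝ) ^ (1 / (24 * n : ℝ))) →
        (∀ p ∈ box M α X, ∀ i, SplitPrime a b (p i)) ∧
        |(((box M α X).filter fun p => Unchanged a b (img p)).card : ℝ) -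
            (prob (n - 1) * ((box M α X).filter fun p => Odd (ones a b p)).card +
              prob (n - 2) *
                ((box M α X).filter fun p => Even (ones a b p) ∧ ones a b p ≠ 0).card)| ≤
          A * (z : ℝ) ^ (-(1 / 24 : ℝ)) * (box M α X).card := by
  obtain ⟨A, hA, h⟩ := LawG.split_lawF hn hM hM8 α (fun i => (hα i).1) fun i => (hα i).2.1
  refine ⟨A, hA, fun a b hb hd hbad X z hz hzX hlog => ?_⟩
  have hsp : ∀ p ∈ box M α X, ∀ i, SplitPrime a b (p i) := fun p hp i =>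
    split_of hM8 hbad (hα i).1 (hα i).2.1
      (fun l hl hl2 hlb => (hα i).2.2 l hl hl2 (hbad l hl hlb))
      ((mem_box hp).2 i).1 ((mem_box hp).2 i).2
  refine ⟨hsp, ?_⟩
  have key := h (root a b) X z hz hzX hlog
  have e1 : (box M α X).filter (fun p => Unchanged a b (img p)) =
      (Fintype.piFinset fun i => Pool.Agent.R338.EQ.clsM M (α i) (X i)).filter fun p =>
        Function.Injective p ∧ (Pool.Agent.R338.EQ.symMat (Pool.Agent.R338.EQ.symG p)
          (fun i => root a b (p i)) univ).det ≠ 0 := by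
    rw [← filter_filter]
    show (box M α X).filter _ = (box M α X).filter _
    refine filter_congr fun p hp => ?_
    have hS : SS a b (img p) := by
      intro q hq
      obtain ⟨i, -, rfl⟩ := mem_image.1 hq
      exact hsp p hp i
    rw [unchanged_iff hb hd hS, det_symMat (mem_box hp).1 (fun i => ⟨(hsp p hp i).1, by
      have := (hsp p hp i).2.1
      omega⟩)]
    exact corankG_zero
  rw [e1]
  have e2 : ∀ (Q : (Fin n → ℕ) → Prop) [DecidablePred Q]
      [DecidablePred fun p => Function.Injective p ∧ Q p], ((box M α X).filter Q).card =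
      ((Fintype.piFinset fun i => Pool.Agent.R338.EQ.clsM M (α i) (X i)).filter fun p =>
        Function.Injective p ∧ Q p).card := by
    intro Q _ _
    congr 1
    ext p
    rw [mem_filter, mem_filter]
    unfold box
    rw [mem_filter, and_assoc]
    exact Iff.rfl
  rw [e2 fun p => Odd (ones a b p), e2 fun p => Even (ones a b p) ∧ ones a b p ≠ 0]
  exact key

/-- the law with one fixed prime `q` -/
theorem lawq {n : ℕ} (hn : 0 < n) {M : ℕ} (hM : 0 < M) (hM8 : 8 ∣ M) {q : ℕ}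
    (hqM : q ∣ M) (α : Fin n → ℕ)
    (hα : ∀ i, (α i).Coprime M ∧ α i % 8 = 1 ∧
      ∀ l : ℕ, l.Prime → l ≠ 2 → l ≠ q → l ∣ M → IsSquare ((α i : ℕ) : ZMod l))
    (hodd : Odd (univ.filter fun i => ¬ IsSquare ((α i : ℕ) : ZMod q)).card) :
    ∃ A : ℝ, 0 ≤ A ∧ ∀ a b : ℤ, b ≠ 0 → a ^ 2 - 4 * b ≠ 0 →
      (∀ l : ℕ, l.Prime → (l : ℤ) ∣ b * (a ^ 2 - 4 * b) → l ∣ M) →
      SplitPrime a b q → root a b q = 1 →
      ∀ (X : Fin n → ℕ) (z : ℕ), 2 ≤ z → (∀ i, z ≤ X i) →
        (∀ i, Real.log (X i) ≤ (z : ℝ) ^ (1 / (24 * n : ℝ))) →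
        (∀ p ∈ box M α X, ∀ i, SplitPrime a b (p i) ∧ p i ≠ q) ∧
        |(((box M α X).filter fun p => Unchanged a b (insert q (img p))).card : ℝ) -
            prob (n - 1) * (box M α X).card| ≤
          A * (z : ℝ) ^ (-(1 / 24 : ℝ)) * (box M α X).card := by
  have hw : ∑ i, nonsq q (α i) = 1 := by
    have h1 : ∑ i, nonsq q (α i) =
        ((univ.filter fun i => ¬ IsSquare ((α i : ℕ) : ZMod q)).card : ZMod 2) := by
      rw [card_filter, Nat.cast_sum]
      refine sum_congr rfl fun i _ => ?_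
      unfold nonsq
      by_cases h : IsSquare ((α i : ℕ) : ZMod q)
      · rw [if_pos h, if_neg fun h' => h' h, Nat.cast_zero]
      · rw [if_neg h, if_pos h, Nat.cast_one]
    rw [h1]
    exact (ZMod.natCast_eq_one_iff_odd).2 hodd
  obtain ⟨A, hA, h⟩ := law_fix trg hn hM hM8 α (fun i => (hα i).1) (fun i => (hα i).2.1)
    (fun i => nonsq q (α i)) hw
  refine ⟨A, hA, fun a b hb hd hbad hsq hroot X z hz hzX hlog => ?_⟩
  have hsp : ∀ p ∈ box M α X, ∀ i, SplitPrime a b (p i) ∧ p i ≠ q := fun p hp i => by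
    refine ⟨split_of hM8 hbad (hα i).1 (hα i).2.1
      (fun l hl hl2 hlb => (hα i).2.2 l hl hl2 ?_ (hbad l hl hlb))
      ((mem_box hp).2 i).1 ((mem_box hp).2 i).2, ?_⟩
    · rintro rfl
      exact (hsq.2.2 l hl hl2 hlb).1 dvd_rfl
    · intro hpq
      have h1 : p i ≡ α i [MOD q] := Nat.ModEq.of_dvd hqM ((mem_box hp).2 i).2
      rw [hpq] at h1
      have h3 : q ∣ α i := (h1.dvd_iff dvd_rfl).1 dvd_rfl
      have h4 := Nat.dvd_gcd h3 hqM
      rw [(hα i).1] at h4
      exact hsq.1.one_lt.ne' (Nat.dvd_one.1 h4)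
  refine ⟨hsp, ?_⟩
  have key := h (root a b) X z hz hzX hlog
  have e1 : (box M α X).filter (fun p => Unchanged a b (insert q (img p))) =
      (Fintype.piFinset fun i => Pool.Agent.R338.EQ.clsM M (α i) (X i)).filter fun p =>
        Function.Injective p ∧ QG (fun i => nonsq q (α i)) (Pool.Agent.R338.EQ.symG p)
          (fun i => root a b (p i)) := by
    rw [← filter_filter]
    show (box M α X).filter _ = (box M α X).filter _
    refine filter_congr fun p hp => ?_
    have hS : SS a b (insert q (img p)) := by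
      intro r hr
      rcases mem_insert.1 hr with rfl | hr
      · exact hsq
      · obtain ⟨i, -, rfl⟩ := mem_image.1 hr
        exact (hsp p hp i).1
    have hcls : ∀ i, nonsq q (p i) = nonsq q (α i) := by
      intro i
      have h1 : p i ≡ α i [MOD q] := Nat.ModEq.of_dvd hqM ((mem_box hp).2 i).2
      unfold nonsq
      rw [(ZMod.natCast_eq_natCast_iff (p i) (α i) q).2 h1]
    have hw' : ∑ i, Pool.Agent.Results.MP_4a9ea6_nt.TwoPartTwistsX49.nonsq q (p i) = 1 := by
      rw [← hw]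
      exact sum_congr rfl fun i _ => hcls i
    have h5 := corank_fix dtg (mem_box hp).1 (fun i => ⟨(hsp p hp i).1.1, by
      have := (hsp p hp i).1.2.1
      omega⟩) hsq.1 (by
      have := hsq.2.1
      omega) (fun i => (hsp p hp i).2) (f := root a b) hroot hw'
    have h6 : (fun i => Pool.Agent.Results.MP_4a9ea6_nt.TwoPartTwistsX49.nonsq q (p i)) =
        fun i => nonsq q (α i) := funext hcls
    rw [h6] at h5
    rw [unchanged_iff hb hd hS]
    exact h5
  rw [e1]
  exact key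

/-- the boxes are not empty -/
theorem box_nonempty {n : ℕ} {M : ℕ} (hM : 0 < M) (α : Fin n → ℕ)
    (hα : ∀ i, (α i).Coprime M) : ∃ X₀ : ℕ, ∀ X : Fin n → ℕ, (∀ i, X₀ ≤ X i) →
      (box M α X).Nonempty := by
  have : NeZero M := ⟨hM.ne'⟩
  have h1 : ∀ (i : Fin n) (N : ℕ), ∃ p, N < p ∧ p.Prime ∧ p % M = α i % M := by
    intro i N
    obtain ⟨p, hp, hpp, h⟩ := Nat.forall_exists_prime_gt_and_eq_mod (q := M) (a := (α i : ZMod M))
      ((ZMod.isUnit_iff_coprime (α i) M).2 (hα i)) N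
    exact ⟨p, hp, hpp, (ZMod.natCast_eq_natCast_iff' p (α i) M).1 h⟩
  choose F hF using h1
  rcases Nat.eq_zero_or_pos n with rfl | hn
  · refine ⟨0, fun X _ => ⟨fun i => i.elim0, ?_⟩⟩
    unfold box
    rw [mem_filter, Fintype.mem_piFinset]
    exact ⟨fun i => i.elim0, fun i => i.elim0⟩
  obtain ⟨t, ht⟩ : ∃ t : ℕ → ℕ, ∀ k, t (k + 1) = F ⟨k % n, Nat.mod_lt _ hn⟩ (t k) :=
    ⟨fun k => Nat.rec 0 (fun k tk => F ⟨k % n, Nat.mod_lt _ hn⟩ tk) k, fun k => rfl⟩
  have hmono : StrictMono t := strictMono_nat_of_lt_succ fun k => by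
    rw [ht]
    exact (hF _ _).1
  refine ⟨t n, fun X hX => ⟨fun i => t (i + 1), ?_⟩⟩
  unfold box
  rw [mem_filter, Fintype.mem_piFinset]
  refine ⟨fun i => mem_filter.2 ⟨mem_range.2 ?_, ?_⟩, fun i j hij => ?_⟩
  · have h2 : t (i + 1) ≤ t n := hmono.monotone (show (i : ℕ) + 1 ≤ n by have := i.2; omega)
    have := hX i
    omega
  · rw [ht]
    have h3 : (⟨(i : ℕ) % n, Nat.mod_lt _ hn⟩ : Fin n) = i := Fin.ext (Nat.mod_eq_of_lt i.2)
    rw [h3]
    exact (hF _ _).2
  · have h4 : t (i + 1) = t (j + 1) := hij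
    have h5 : (i : ℕ) + 1 = j + 1 := hmono.injective h4
    exact Fin.ext (by omega)

theorem prob_gt (m : ℕ) : 0.4194 < prob m := by
  obtain ⟨h1, -, -, h2, -⟩ := Pool.Agent.Y948.CQ.c2_main _ rfl
  set c : ℝ := ∏' i : ℕ, (1 - (1 / 2 : ℝ) ^ (2 * i + 1)) with hc
  have hanti : Antitone fun n : ℕ => ∏ i ∈ range n, (1 - (1 / 2 : ℝ) ^ (2 * i + 1)) := by
    refine antitone_nat_of_succ_le fun n => ?_
    rw [prod_range_succ]
    have h3 : 0 ≤ ∏ i ∈ range n, (1 - (1 / 2 : ℝ) ^ (2 * i + 1)) := prod_nonneg fun i _ => by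
      have : (1 / 2 : ℝ) ^ (2 * i + 1) ≤ 1 := pow_le_one₀ (by norm_num) (by norm_num)
      linarith
    have h4 : (0 : ℝ) ≤ (1 / 2 : ℝ) ^ (2 * n + 1) := by positivity
    nlinarith
  obtain ⟨N, hN⟩ := exists_pow_lt_of_lt_one (show (0 : ℝ) < c - 0.4194 by linarith)
    (show (1 / 4 : ℝ) < 1 by norm_num)
  have h5 := h1 (max N ((m + 1) / 2))
  have h6 : (1 / 4 : ℝ) ^ (max N ((m + 1) / 2)) ≤ (1 / 4 : ℝ) ^ N :=
    pow_le_pow_of_le_one (by norm_num) (by norm_num) (le_max_left _ _)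
  have h7 := hanti (le_max_right N ((m + 1) / 2))
  have h8 := (abs_le.1 h5).1
  unfold prob
  simp only at h7
  linarith

/-- the curves `y² = x³ + a x² - x` with `a > 0` and `a² + 4` prime -/
theorem base {a : ℤ} (ha : 0 < a) (hp : (a ^ 2 + 4).natAbs.Prime) : N1 a (-1) = 2 ∧ N2 a (-1) = 2 := by
  constructor
  · have h : Classes a (-1) = {1, -1} := by
      ext x
      rw [Set.mem_insert_iff, Set.mem_singleton_iff]
      constructor
      · rintro ⟨-, h, -⟩
        exact Int.isUnit_iff.1 (isUnit_of_dvd_unit h (by decide))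
      · rintro (rfl | rfl)
        · exact one_mem
        · refine ⟨(isUnit_one.neg).squarefree, dvd_rfl, ⟨1, 0, 1, Or.inr one_ne_zero, ?_⟩, fun p hp =>
            ⟨1, 0, 1, Or.inr one_ne_zero, ?_⟩⟩ <;> simp
    unfold N1
    rw [h]
    exact Set.ncard_pair (by decide)
  · have hpos : 0 < a ^ 2 + 4 := by positivity
    have e0 : a ^ 2 - 4 * -1 = a ^ 2 + 4 := by ring
    have hnat : ((a ^ 2 + 4).natAbs : ℤ) = a ^ 2 + 4 := Int.natAbs_of_nonneg hpos.le
    have h : Classes (-2 * a) (a ^ 2 - 4 * -1) = {1, a ^ 2 + 4} := by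
      rw [e0]
      ext x
      rw [Set.mem_insert_iff, Set.mem_singleton_iff]
      constructor
      · rintro ⟨-, h, hR, -⟩
        have hx0 : x ≠ 0 := by
          rintro rfl
          rw [zero_dvd_iff] at h
          exact hpos.ne' h
        have h1 : x.natAbs ∣ (a ^ 2 + 4).natAbs := Int.natAbs_dvd_natAbs.2 h
        have hx : 0 < x := by
          by_contra hx
          have hxn : x < 0 := lt_of_le_of_ne (not_lt.1 hx) hx0
          obtain ⟨y, hy⟩ := h
          have hyn : y < 0 := by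
            by_contra hy0
            have := mul_nonpos_of_nonpos_of_nonneg hxn.le (not_lt.1 hy0)
            omega
          have hq : (a ^ 2 + 4) / x = y := by
            rw [hy]
            exact Int.mul_ediv_cancel_left _ hx0
          obtain ⟨N, M, e, hMe, hN⟩ := hR
          rw [hq] at hN
          have c1 : (x : ℝ) < 0 := by exact_mod_cast hxn
          have c2 : (y : ℝ) < 0 := by exact_mod_cast hyn
          have c3 : (0 : ℝ) < a := by exact_mod_cast ha
          push_cast at hN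
          have d1 : 0 ≤ M ^ 2 * e ^ 2 * (a : ℝ) := by positivity
          have d2 : (x : ℝ) * M ^ 4 ≤ 0 := mul_nonpos_of_nonpos_of_nonneg c1.le (by positivity)
          have d3 : (y : ℝ) * e ^ 4 ≤ 0 := mul_nonpos_of_nonpos_of_nonneg c2.le (by positivity)
          have d4 : 0 ≤ N ^ 2 := sq_nonneg N
          rcases hMe with h | h
          · have d5 : (x : ℝ) * M ^ 4 < 0 := mul_neg_of_neg_of_pos c1 (by positivity)
            nlinarith
          · have d5 : (y : ℝ) * e ^ 4 < 0 := mul_neg_of_neg_of_pos c2 (by positivity)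
            nlinarith
        have hxn : (x.natAbs : ℤ) = x := Int.natAbs_of_nonneg hx.le
        rcases (Nat.dvd_prime hp).1 h1 with h2 | h2
        · left
          omega
        · right
          rw [← hxn, h2, hnat]
      · rintro (rfl | rfl)
        · exact one_mem
        · have hsf : Squarefree (a ^ 2 + 4) := by
            rw [← Int.squarefree_natAbs]
            exact (Nat.prime_iff.1 hp).squarefree
          refine ⟨hsf, dvd_rfl, ?_, fun p hp => ?_⟩
          · refine ⟨1, 0, 1, Or.inr one_ne_zero, ?_⟩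
            rw [Int.ediv_self hpos.ne']
            simp
          · refine ⟨1, 0, 1, Or.inr one_ne_zero, ?_⟩
            rw [Int.ediv_self hpos.ne']
            simp
    unfold N2
    rw [h]
    exact Set.ncard_pair (by nlinarith)

/-- an example of a fixed prime -/
theorem example_q : SplitPrime 1 (-1) 41 ∧ root 1 (-1) 41 = 1 := by
  refine ⟨⟨by norm_num, by norm_num, fun l hl hl2 h => ?_⟩, ?_⟩
  · have h5 : l ∣ 5 := by
      have h1 : (l : ℤ) ∣ -5 := by
        have e : (-1 : ℤ) * (1 ^ 2 - 4 * -1) = -5 := by norm_num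
        rwa [e] at h
      have h2 : (l : ℤ) ∣ 5 := (dvd_neg).1 h1
      exact_mod_cast h2
    have h6 : l = 5 := (Nat.prime_dvd_prime_iff_eq hl Nat.prime_five).1 h5
    subst h6
    exact ⟨by norm_num, ⟨1, by decide⟩⟩
  · unfold root
    rw [if_neg]
    push_cast
    decide

/-- the limit with one fixed prime -/
theorem limq {n : ℕ} (hn : 0 < n) {M : ℕ} (hM : 0 < M) (hM8 : 8 ∣ M) {q : ℕ}
    (hqM : q ∣ M) (α : Fin n → ℕ)
    (hα : ∀ i, (α i).Coprime M ∧ α i % 8 = 1 ∧
      ∀ l : ℕ, l.Prime → l ≠ 2 → l ≠ q → l ∣ M → IsSquare ((α i : ℕ) : ZMod l))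
    (hodd : Odd (univ.filter fun i => ¬ IsSquare ((α i : ℕ) : ZMod q)).card)
    {a b : ℤ} (hb : b ≠ 0) (hd : a ^ 2 - 4 * b ≠ 0)
    (hbad : ∀ l : ℕ, l.Prime → (l : ℤ) ∣ b * (a ^ 2 - 4 * b) → l ∣ M)
    (hsq : SplitPrime a b q) (hroot : root a b q = 1) (h4 : N1 a b * N2 a b = 4) :
    Filter.Tendsto (fun X : ℕ => (((box M α fun _ => X).filter fun p =>
      Zero (a * D (insert q (img p))) (b * D (insert q (img p)) ^ 2)).card : ℝ) /
        (box M α fun _ => X).card) Filter.atTop (nhds (prob (n - 1))) := by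
  obtain ⟨A, hA, h⟩ := lawq hn hM hM8 hqM α hα hodd
  obtain ⟨X₀, hX₀⟩ := box_nonempty hM α fun i => (hα i).1
  have hn0 : (0 : ℝ) < 1 / (24 * n : ℝ) := by positivity
  have hlog : ∀ᶠ X : ℕ in Filter.atTop, Real.log X ≤ (X : ℝ) ^ (1 / (24 * n : ℝ)) := by
    have h1 := ((isLittleO_log_rpow_atTop hn0).bound one_pos)
    have h2 := tendsto_natCast_atTop_atTop (R := ℝ) |>.eventually h1
    filter_upwards [h2, Filter.eventually_ge_atTop 1] with X hX hX1
    rw [one_mul] at hX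
    have h3 : (0 : ℝ) ≤ (X : ℝ) ^ (1 / (24 * n : ℝ)) := by positivity
    rw [Real.norm_of_nonneg h3] at hX
    exact (le_abs_self _).trans hX
  have hzero : Filter.Tendsto (fun X : ℕ => A * (X : ℝ) ^ (-(1 / 24 : ℝ))) Filter.atTop (nhds 0) := by
    have h1 := (tendsto_rpow_neg_atTop (show (0 : ℝ) < 1 / 24 by norm_num)).comp
      (tendsto_natCast_atTop_atTop (R := ℝ))
    have h2 := h1.const_mul A
    rw [mul_zero] at h2
    exact h2
  rw [tendsto_iff_norm_sub_tendsto_zero]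
  refine squeeze_zero' (Filter.Eventually.of_forall fun X => norm_nonneg _) ?_ hzero
  filter_upwards [hlog, Filter.eventually_ge_atTop 2, Filter.eventually_ge_atTop X₀]
    with X hX hX2 hX0
  obtain ⟨hsp, key⟩ := h a b hb hd hbad hsq hroot (fun _ => X) X hX2 (fun _ => le_rfl) fun _ => hX
  have hne : (0 : ℝ) < (box M α fun _ => X).card := by
    exact_mod_cast (hX₀ (fun _ => X) fun _ => hX0).card_pos
  have e : ((box M α fun _ => X).filter fun p =>
      Zero (a * D (insert q (img p))) (b * D (insert q (img p)) ^ 2)) =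
      ((box M α fun _ => X).filter fun p => Unchanged a b (insert q (img p))) := by
    refine filter_congr fun p hp => ?_
    have hS : SS a b (insert q (img p)) := by
      intro r hr
      rcases mem_insert.1 hr with rfl | hr
      · exact hsq
      · obtain ⟨i, -, rfl⟩ := mem_image.1 hr
        exact (hsp p hp i).1
    rw [zero_iff hb hd h4 hS, unchanged_iff hb hd hS]
  rw [e, Real.norm_eq_abs, div_sub' hne.ne', abs_div, abs_of_pos hne, div_le_iff₀ hne]
  rw [mul_comm (prob (n - 1))] at key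
  exact key

theorem f1_eq {a b : ℤ} (hb : b ≠ 0) (hd : a ^ 2 - 4 * b ≠ 0) {S : Finset ℕ} (hS : SS a b S) :
    f1 (a * D S) (b * D S ^ 2) = f1 a b + corank a b S := by
  unfold f1
  rw [n1_eq hb hd hS, log_mul (n1_pos hb)]

theorem f2_eq {a b : ℤ} (hb : b ≠ 0) (hd : a ^ 2 - 4 * b ≠ 0) {S : Finset ℕ} (hS : SS a b S) :
    f2 (a * D S) (b * D S ^ 2) = f2 a b + corank a b S := by
  unfold f2
  rw [n2_eq hb hd hS, log_mul (n2_pos hd)]

end proof

theorem result :
    (∀ a b : ℤ, b ≠ 0 → a ^ 2 - 4 * b ≠ 0 →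
      Module.Finite ℤ (Curve a b).toAffine.Point ∧ N1 a b ≠ 0 ∧ N2 a b ≠ 0 ∧
      4 * 2 ^ rank a b ≤ N1 a b * N2 a b ∧ (Zero a b → Parity a b)) ∧
    (∀ a b : ℤ, b ≠ 0 → a ^ 2 - 4 * b ≠ 0 → ∀ S : Finset ℕ, (∀ p ∈ S, SplitPrime a b p) →
      N1 (a * D S) (b * D S ^ 2) = N1 a b * 2 ^ corank a b S ∧
      N2 (a * D S) (b * D S ^ 2) = N2 a b * 2 ^ corank a b S ∧
      f1 (a * D S) (b * D S ^ 2) = f1 a b + corank a b S ∧
      f2 (a * D S) (b * D S ^ 2) = f2 a b + corank a b S ∧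
      (Parity (a * D S) (b * D S ^ 2) ↔ Even (rank (a * D S) (b * D S ^ 2) + f1 a b + f2 a b)) ∧
      (Unchanged a b S ↔ corank a b S = 0) ∧
      (N1 a b * N2 a b = 4 → (Zero (a * D S) (b * D S ^ 2) ↔ corank a b S = 0))) ∧
    (∀ n : ℕ, 0 < n → ∀ M : ℕ, 0 < M → 8 ∣ M → ∀ α : Fin n → ℕ,
      (∀ i, (α i).Coprime M ∧ α i % 8 = 1 ∧
        ∀ l : ℕ, l.Prime → l ≠ 2 → l ∣ M → IsSquare ((α i : ℕ) : ZMod l)) →
      ∃ A : ℝ, 0 ≤ A ∧ ∀ a b : ℤ, b ≠ 0 → a ^ 2 - 4 * b ≠ 0 →
        (∀ l : ℕ, l.Prime → (l : ℤ) ∣ b * (a ^ 2 - 4 * b) → l ∣ M) →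
        ∀ (X : Fin n → ℕ) (z : ℕ), 2 ≤ z → (∀ i, z ≤ X i) →
          (∀ i, Real.log (X i) ≤ (z : ℝ) ^ (1 / (24 * n : ℝ))) →
          (∀ p ∈ box M α X, ∀ i, SplitPrime a b (p i)) ∧
          |(((box M α X).filter fun p => Unchanged a b (img p)).card : ℝ) -
              (prob (n - 1) * ((box M α X).filter fun p => Odd (ones a b p)).card +
                prob (n - 2) *
                  ((box M α X).filter fun p => Even (ones a b p) ∧ ones a b p ≠ 0).card)| ≤
            A * (z : ℝ) ^ (-(1 / 24 : ℝ)) * (box M α X).card) ∧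
    (∀ n : ℕ, 0 < n → ∀ M : ℕ, 0 < M → 8 ∣ M → ∀ q : ℕ, q ∣ M → ∀ α : Fin n → ℕ,
      (∀ i, (α i).Coprime M ∧ α i % 8 = 1 ∧
        ∀ l : ℕ, l.Prime → l ≠ 2 → l ≠ q → l ∣ M → IsSquare ((α i : ℕ) : ZMod l)) →
      Odd (univ.filter fun i => ¬ IsSquare ((α i : ℕ) : ZMod q)).card →
      ∃ A : ℝ, 0 ≤ A ∧ ∀ a b : ℤ, b ≠ 0 → a ^ 2 - 4 * b ≠ 0 →
        (∀ l : ℕ, l.Prime → (l : ℤ) ∣ b * (a ^ 2 - 4 * b) → l ∣ M) →
        SplitPrime a b q → root a b q = 1 →
        ∀ (X : Fin n → ℕ) (z : ℕ), 2 ≤ z → (∀ i, z ≤ X i) →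
          (∀ i, Real.log (X i) ≤ (z : ℝ) ^ (1 / (24 * n : ℝ))) →
          (∀ p ∈ box M α X, ∀ i, SplitPrime a b (p i) ∧ p i ≠ q) ∧
          |(((box M α X).filter fun p => Unchanged a b (insert q (img p))).card : ℝ) -
              prob (n - 1) * (box M α X).card| ≤
            A * (z : ℝ) ^ (-(1 / 24 : ℝ)) * (box M α X).card) ∧
    (∀ n : ℕ, 0 < n → ∀ M : ℕ, 0 < M → 8 ∣ M → ∀ q : ℕ, q ∣ M → ∀ α : Fin n → ℕ,
      (∀ i, (α i).Coprime M ∧ α i % 8 = 1 ∧
        ∀ l : ℕ, l.Prime → l ≠ 2 → l ≠ q → l ∣ M → IsSquare ((α i : ℕ) : ZMod l)) →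
      Odd (univ.filter fun i => ¬ IsSquare ((α i : ℕ) : ZMod q)).card →
      ∀ a b : ℤ, b ≠ 0 → a ^ 2 - 4 * b ≠ 0 →
        (∀ l : ℕ, l.Prime → (l : ℤ) ∣ b * (a ^ 2 - 4 * b) → l ∣ M) →
        SplitPrime a b q → root a b q = 1 → N1 a b * N2 a b = 4 →
        Filter.Tendsto (fun X : ℕ => (((box M α fun _ => X).filter fun p =>
          Zero (a * D (insert q (img p))) (b * D (insert q (img p)) ^ 2)).card : ℝ) /
            (box M α fun _ => X).card) Filter.atTop (nhds (prob (n - 1)))) ∧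
    (∀ n M : ℕ, 0 < M → ∀ α : Fin n → ℕ, (∀ i, (α i).Coprime M) →
      ∃ X₀ : ℕ, ∀ X : Fin n → ℕ, (∀ i, X₀ ≤ X i) → (box M α X).Nonempty) ∧
    (∀ m : ℕ, 0.4194 < prob m) ∧
    (∀ a : ℤ, 0 < a → (a ^ 2 + 4).natAbs.Prime → N1 a (-1) = 2 ∧ N2 a (-1) = 2) ∧
    SplitPrime 1 (-1) 41 ∧ root 1 (-1) 41 = 1 := by
  refine ⟨fun a b hb hd => ⟨Pool.Agent.R413.TI.ce_fg hb hd, n1_pos hb, n2_pos hd, rank_bd hb hd,
    zero_parity hb⟩, fun a b hb hd S hS => ?_, fun n hn M hM hM8 α hα => law hn hM hM8 α hα,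
    fun n hn M hM hM8 q hqM α hα hodd => lawq hn hM hM8 hqM α hα hodd,
    fun n hn M hM hM8 q hqM α hα hodd a b hb hd hbad hsq hroot h4 =>
      limq hn hM hM8 hqM α hα hodd hb hd hbad hsq hroot h4,
    fun n M hM α hα => box_nonempty hM α hα, prob_gt, fun a ha hp => base ha hp, example_q⟩
  have h1 := f1_eq hb hd hS
  have h2 := f2_eq hb hd hS
  refine ⟨n1_eq hb hd hS, n2_eq hb hd hS, h1, h2, ?_, unchanged_iff hb hd hS,
    fun h4 => zero_iff hb hd h4 hS⟩
  unfold Parity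
  rw [h1, h2]
  constructor
  · intro h
    rw [Nat.even_iff] at h ⊢
    omega
  · intro h
    rw [Nat.even_iff] at h ⊢
    omega

end Pool.Agent.Results.MP_e2b281_nt.AllCurvesRandomTwists
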