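import Pool.Agent.R413.TI.Inst
import Pool.Agent.R413.TI.Good
import Pool.Agent.R413.TI.Two
import Pool.Agent.R413.TI.Inert
import Pool.Agent.R413.TI.Split1
import Pool.Agent.R413.TI.Split2
import Pool.Agent.R413.CK.Sx
import Pool.Agent.Results.MP_03e5d0_nt.FullClassX49

/-!
# The 2-Selmer ranks by descent via 2-isogeny of the quadratic twists of `X_0(49)`

`D ≥ 1` runs over all squarefree numbers with all prime factors `≡ 1 mod 4`, and
`E_D : y² = x³ + 21 D x² + 112 D² x` is the quadratic twist by `D` of `X_0(49)`. For the curve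
`y² = x³ + a x² + b x` the problem counts the squarefree `b₁ ∣ b` (`Classes a b`) such that
`N² = b₁ M⁴ + a M² e² + (b / b₁) e⁴` is everywhere locally solvable, and the same for
`y² = x³ - 2 a x² + (a² - 4 b) x`; `s = f₁ + f₂ - 2` is the 2-Selmer rank (`selmerRank`).

For all `D` of the class, with no hypothesis, `2 ^ f₁ = 2 ^ f₂ = 2 ^ (corank D + 1)`, where `corank D`
is the corank of the matrix `mat D` over `𝔽₂` given by Legendre symbols and quartic residue symbols of
the prime factors of `D`. So `s = 2 corank D` is always even, and the statement of the problem holds for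
`E_D` if and only if the rank of `E_D(ℚ)` is even.

Statistics, for `law r = c / ∏_{i < r} (2^{i+1} - 1)`, `c = ∏_{i ≥ 0} (1 - 2^{-(2i+1)}) = 0.4194...`, and
any finite set `T` of numbers of the class, as `D` runs over the class ordered by size (for `M` and `D` in
the class the squarefree part `tw M D` of `M D` is in the class, and `E_{tw M D}` is the twist by `D` of
`E_M`):
* the 2-Selmer ranks of the curves `E_{tw M D}`, `M ∈ T`, are independent, and each is equal to `2 r`
  with probability `law r`;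
* all these curves have `r = s = 0` for exactly the proportion `c ^ #T` of the `D`; in particular the
  statement of the problem holds for all these curves for at least this proportion of the `D`;
* all the moments of the 2-Selmer rank converge to the moments of `2 r` for this law.

The solubility at the primes is due to helper515 (good primes), helper813 (the prime 2), helper560
(inert primes), helper874 and helper699 (split primes).
-/

set_option autoImplicit false

open Filter Topology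

namespace Pool.Agent.Results.MP_e2b281_nt.ExactSelmerRanksX49

open Pool.Agent.Results.MP_4a9ea6_nt.TwoPartTwistsX49 (E split mat)
open Pool.Agent.Results.MP_92892c_nt.FullClassTwoPartX49 (Family)
open Pool.Agent.Results.MP_03e5d0_nt.FullClassX49 (tw c)

/-- the quartic `N² = b₁ M⁴ + a M² e² + b₂ e⁴` has a solution over `K` with `(M, e) ≠ (0, 0)` -/
def Solvable (K : Type) [Field K] (a b₁ b₂ : ℤ) : Prop :=
  ∃ N M e : K, (M ≠ 0 ∨ e ≠ 0) ∧
    N ^ 2 = (b₁ : K) * M ^ 4 + (a : K) * M ^ 2 * e ^ 2 + (b₂ : K) * e ^ 4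

/-- the squarefree `b₁ ∣ b` whose quartic is everywhere locally solvable -/
def Classes (a b : ℤ) : Set ℤ := {b₁ | Squarefree b₁ ∧ b₁ ∣ b ∧ Solvable ℝ a b₁ (b / b₁) ∧
  ∀ (p : ℕ) [Fact p.Prime], Solvable ℚ_[p] a b₁ (b / b₁)}

/-- the curve `y² = x³ + a x² + b x` -/
def Curve (a b : ℤ) : WeierstrassCurve ℚ := ⟨0, (a : ℚ), 0, (b : ℚ), 0⟩

/-- the coefficient `a` of `E_D` -/
def a (D : ℕ) : ℤ := 21 * (D : ℤ)

/-- the coefficient `b` of `E_D` -/
def b (D : ℕ) : ℤ := 112 * (D : ℤ) ^ 2

/-- the rank of `E_D(ℚ)` -/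
noncomputable def rank (D : ℕ) : ℕ := Module.finrank ℤ (Curve (a D) (b D)).toAffine.Point

/-- the exponent `f₁` of `E_D` -/
noncomputable def f₁ (D : ℕ) : ℕ := Nat.log 2 (Classes (a D) (b D)).ncard

/-- the exponent `f₂` of `E_D`, for the 2-isogenous curve -/
noncomputable def f₂ (D : ℕ) : ℕ := Nat.log 2 (Classes (-2 * a D) (a D ^ 2 - 4 * b D)).ncard

/-- the 2-Selmer rank `s = f₁ + f₂ - 2` of `E_D` -/
noncomputable def selmerRank (D : ℕ) : ℕ := f₁ D + f₂ D - 2

/-- the statement of the problem for `E_D` -/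
def Parity (D : ℕ) : Prop := Even (rank D + f₁ D + f₂ D)

/-- the corank of the matrix `mat D` over the field with two elements -/
noncomputable def corank (D : ℕ) : ℕ := (split D).card - (mat D).rank

/-- the law of the coranks -/
noncomputable def law (r : ℕ) : ℝ := c / ∏ i ∈ Finset.range r, ((2 : ℝ) ^ (i + 1) - 1)

open Classical in
/-- the numbers of the class up to `X` -/
noncomputable def upTo (X : ℕ) : Finset ℕ := (Finset.Icc 1 X).filter Family

open Classical in
/-- the proportion of the numbers with the property `P` among those of the class up to `X` -/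
noncomputable def proportion (P : ℕ → Prop) (X : ℕ) : ℝ :=
  (((upTo X).filter P).card : ℝ) / (upTo X).card

/-- the average of `f` over the numbers of the class up to `X` -/
noncomputable def avg (f : ℕ → ℝ) (X : ℕ) : ℝ := (∑ D ∈ upTo X, f D) / (upTo X).card

section proof

open Pool.Agent.R413.SQ
open Pool.Agent.R413.CK (mr mr_pr mr_hasSum mu mu_bounds rank_corank corank_zero clsX num_clsX
  mean_eq law_box num_mono moment mem_clsX WD wd_iso wd_fg mo_summ)
open Pool.Agent.Results.MP_4a9ea6_nt.TwoPartTwistsX49 (Adm adm_mod)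

theorem cls_eq (a b : ℤ) : Classes a b = Pool.Agent.R413.TI.Cls a b := rfl

theorem corank_ck (D : ℕ) : corank D = Pool.Agent.R413.CK.corank D := rfl

theorem b' (D : ℕ) : a D ^ 2 - 4 * b D = -7 * (D : ℤ) ^ 2 := by
  unfold a b
  ring

theorem a' (D : ℕ) : -2 * a D = -42 * (D : ℤ) := by
  unfold a
  ring

theorem card1 {D : ℕ} (h : Family D) : (Classes (a D) (b D)).ncard = 2 ^ (corank D + 1) :=
  (Pool.Agent.R413.TI.data1 Pool.Agent.R413.TI.good Pool.Agent.R413.TI.two
    Pool.Agent.R413.TI.inert Pool.Agent.R413.TI.split1 h).card h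

theorem card2 {D : ℕ} (h : Family D) :
    (Classes (-2 * a D) (a D ^ 2 - 4 * b D)).ncard = 2 ^ (corank D + 1) := by
  rw [a', b']
  exact (Pool.Agent.R413.TI.data2 Pool.Agent.R413.TI.good Pool.Agent.R413.TI.two
    Pool.Agent.R413.TI.inert Pool.Agent.R413.TI.split2 h).card h

theorem f1_eq {D : ℕ} (h : Family D) : f₁ D = corank D + 1 := by
  unfold f₁
  rw [card1 h, Nat.log_pow (by norm_num)]

theorem f2_eq {D : ℕ} (h : Family D) : f₂ D = corank D + 1 := by
  unfold f₂
  rw [card2 h, Nat.log_pow (by norm_num)]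

theorem s_eq {D : ℕ} (h : Family D) : selmerRank D = 2 * corank D := by
  unfold selmerRank
  rw [f1_eq h, f2_eq h]
  omega

theorem curve_wd (D : ℕ) : Curve (a D) (b D) = WD (D : ℚ) := by
  unfold Curve a b WD
  push_cast
  rfl

theorem vc {D : ℕ} (h : Family D) :
    ∃ C : WeierstrassCurve.VariableChange ℚ, C • E D = Curve (a D) (b D) := by
  have h4 : D % 4 = 1 := adm_mod h
  have hm : (((3 * (D : ℤ) + 1) / 4 : ℤ) : ℚ) = (3 * (D : ℚ) + 1) / 4 := by
    have h1 : (4 : ℤ) ∣ 3 * D + 1 := by omega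
    rw [Int.cast_div h1 (by norm_num)]
    push_cast
    rfl
  refine ⟨⟨Units.mk0 (1 / 2 : ℚ) (by norm_num), 2 * D, -1 / 2, -D⟩, ?_⟩
  have hu : ((Units.mk0 (1 / 2 : ℚ) (by norm_num))⁻¹ : ℚˣ) = Units.mk0 (2 : ℚ) (by norm_num) := by
    ext
    simp
  unfold Curve a b E Pool.Agent.Results.MP_4a9ea6_nt.TwoPartTwistsX49.twist
  ext
  · simp [WeierstrassCurve.variableChange_a₁]
    norm_num
  · simp [WeierstrassCurve.variableChange_a₂, hm]
    ring
  · simp [WeierstrassCurve.variableChange_a₃]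
  · simp [WeierstrassCurve.variableChange_a₄, hm]
    ring
  · simp [WeierstrassCurve.variableChange_a₆, hm]
    ring

theorem rank_le {D : ℕ} (h : Family D) :
    Module.Finite ℤ (Curve (a D) (b D)).toAffine.Point ∧ rank D ≤ 2 * corank D := by
  have hD : D ≠ 0 := h.1.ne_zero
  obtain ⟨iso⟩ := wd_iso hD (adm_mod h)
  have h1 := rank_corank h
  unfold rank
  rw [curve_wd]
  refine ⟨wd_fg hD, ?_⟩
  rw [← iso.toIntLinearEquiv.finrank_eq]
  exact h1.2

theorem parity_iff {D : ℕ} (h : Family D) : Parity D ↔ Even (rank D) := by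
  unfold Parity
  rw [f1_eq h, f2_eq h]
  constructor
  · intro h1
    rw [Nat.even_iff] at h1 ⊢
    omega
  · intro h1
    rw [Nat.even_iff] at h1 ⊢
    omega

theorem law_mr : law = mr := by
  funext r
  rw [mr_pr]
  rfl

theorem upTo_cls (X : ℕ) : upTo X = clsX X := by
  unfold upTo clsX
  congr 1

theorem card_num (X : ℕ) : ((upTo X).card : ℝ) = (Joint.num (fun _ => True) X : ℝ) := by
  rw [num_clsX, upTo_cls]
  congr 2
  ext D
  simp

theorem prop_num (P : ℕ → Prop) (X : ℕ) :
    proportion P X = (Joint.num P X : ℝ) / (Joint.num (fun _ => True) X : ℝ) := by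
  unfold proportion
  rw [card_num, num_clsX P, upTo_cls]

theorem prop_mono {P Q : ℕ → Prop} (h : ∀ D, Family D → P D → Q D) (X : ℕ) :
    proportion P X ≤ proportion Q X := by
  rw [prop_num, prop_num]
  refine div_le_div_of_nonneg_right ?_ (Nat.cast_nonneg _)
  exact_mod_cast num_mono (Q := P) (R := Q) (fun D h1 h2 => h D h1 h2) X

theorem prop_congr {P Q : ℕ → Prop} (h : ∀ D, Family D → (P D ↔ Q D)) (X : ℕ) :
    proportion P X = proportion Q X :=
  le_antisymm (prop_mono (fun D hD => (h D hD).1) X) (prop_mono (fun D hD => (h D hD).2) X)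

theorem tw_facts (M D : ℕ) (hM : Family M) (hD : Family D) :
    Family (tw M D) ∧ M * D = tw M D * Nat.gcd M D ^ 2 :=
  ⟨Joint.adm_tw hM hD, (Joint.ac_tw hM hD).2⟩

theorem law_pos (r : ℕ) : 0 < law r := by
  rw [law_mr]
  exact Pool.Agent.R413.CK.mr_pos r

theorem law_sum : HasSum law 1 := by
  rw [law_mr]
  exact mr_hasSum

theorem joint {T : Finset ℕ} (hT : ∀ M ∈ T, Family M) (ρ : ℕ → ℕ) :
    Tendsto (proportion fun D => ∀ M ∈ T, selmerRank (tw M D) = 2 * ρ M) atTop
      (𝓝 (∏ M ∈ T, law (ρ M))) := by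
  have h1 := law_box hT fun M => {ρ M}
  simp only [Finset.sum_singleton, Finset.mem_singleton] at h1
  rw [law_mr]
  refine h1.congr fun X => ?_
  rw [← prop_num]
  refine prop_congr (fun D hD => ?_) X
  refine forall₂_congr fun M hM => ?_
  rw [s_eq (tw_facts M D (hT M hM) hD).1]
  have e : Pool.Agent.R413.CK.corank (Joint.tw M D) = corank (tw M D) := rfl
  rw [e]
  constructor
  · intro h
    rw [h]
  · intro h
    omega

theorem zero {T : Finset ℕ} (hT : ∀ M ∈ T, Family M) :
    Tendsto (proportion fun D => ∀ M ∈ T, selmerRank (tw M D) = 0 ∧ rank (tw M D) = 0) atTop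
      (𝓝 (c ^ T.card)) := by
  have h1 := joint hT fun _ => 0
  have h2 : ∏ M ∈ T, law 0 = c ^ T.card := by
    rw [Finset.prod_const]
    congr 1
    unfold law
    simp
  rw [h2] at h1
  refine h1.congr fun X => prop_congr (fun D hD => ?_) X
  refine forall₂_congr fun M hM => ?_
  have hf := (tw_facts M D (hT M hM) hD).1
  have h3 := s_eq hf
  have h4 := (rank_le hf).2
  constructor
  · intro h
    exact ⟨by omega, by omega⟩
  · intro h
    omega

theorem parity {T : Finset ℕ} (hT : ∀ M ∈ T, Family M) {ε : ℝ} (hε : 0 < ε) :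
    ∀ᶠ X : ℕ in atTop, c ^ T.card - ε ≤ proportion (fun D => ∀ M ∈ T, Parity (tw M D)) X := by
  filter_upwards [(zero hT).eventually (lt_mem_nhds (show c ^ T.card - ε < c ^ T.card by linarith))]
    with X hX
  refine hX.le.trans (prop_mono (fun D hD h M hM => ?_) X)
  rw [parity_iff (tw_facts M D (hT M hM) hD).1, (h M hM).2]
  exact Even.zero

theorem moments {M : ℕ} (hM : Family M) (m : ℕ) :
    Tendsto (avg fun D => (selmerRank (tw M D) : ℝ) ^ m) atTop
      (𝓝 (∑' r : ℕ, (2 * (r : ℝ)) ^ m * law r)) := by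
  have h1 := (moment hM m).const_mul ((2 : ℝ) ^ m)
  have h2 : (2 : ℝ) ^ m * ∑' r : ℕ, (r : ℝ) ^ m * mr r = ∑' r : ℕ, (2 * (r : ℝ)) ^ m * law r := by
    rw [law_mr, ← tsum_mul_left]
    refine tsum_congr fun r => ?_
    rw [mul_pow]
    ring
  rw [h2] at h1
  refine h1.congr fun X => ?_
  unfold avg
  rw [card_num, upTo_cls, ← mul_div_assoc, Finset.mul_sum]
  congr 1
  refine Finset.sum_congr rfl fun D hD => ?_
  have e : Pool.Agent.R413.CK.corank (Joint.tw M D) = corank (tw M D) := rfl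
  show _ = (selmerRank (tw M D) : ℝ) ^ m
  rw [s_eq (tw_facts M D hM (mem_clsX.1 hD).2).1, e, ← mul_pow]
  push_cast
  ring

theorem mean : 1.528 < ∑' r : ℕ, (2 * (r : ℝ)) * law r ∧
    ∑' r : ℕ, (2 * (r : ℝ)) * law r < 1.5292 := by
  have h1 : ∑' r : ℕ, (2 * (r : ℝ)) * law r = 2 * mu := by
    rw [← mean_eq, law_mr, ← tsum_mul_left]
    refine tsum_congr fun r => ?_
    ring
  have h2 := mu_bounds
  rw [h1]
  exact ⟨by linarith [h2.1], by linarith [h2.2]⟩

theorem hc : 0.4194 < c ∧ c < 0.4195 :=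
  ⟨Pool.Agent.Y948.CQ.t_C2.2.2.2.1, Pool.Agent.Y948.CQ.t_C2.2.2.2.2⟩

end proof

theorem result :
    (∀ M D : ℕ, Family M → Family D → Family (tw M D) ∧ M * D = tw M D * Nat.gcd M D ^ 2) ∧
    (∀ D : ℕ, Family D →
      (∃ C : WeierstrassCurve.VariableChange ℚ, C • E D = Curve (a D) (b D)) ∧
      (Classes (a D) (b D)).ncard = 2 ^ (corank D + 1) ∧
      (Classes (-2 * a D) (a D ^ 2 - 4 * b D)).ncard = 2 ^ (corank D + 1) ∧
      selmerRank D = 2 * corank D ∧
      Module.Finite ℤ (Curve (a D) (b D)).toAffine.Point ∧ rank D ≤ selmerRank D ∧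
      (Parity D ↔ Even (rank D))) ∧
    ((∀ r, 0 < law r) ∧ HasSum law 1 ∧ 0.4194 < c ∧ c < 0.4195) ∧
    (∀ T : Finset ℕ, (∀ M ∈ T, Family M) →
      (∀ ρ : ℕ → ℕ, Tendsto (proportion fun D => ∀ M ∈ T, selmerRank (tw M D) = 2 * ρ M) atTop
        (𝓝 (∏ M ∈ T, law (ρ M)))) ∧
      Tendsto (proportion fun D => ∀ M ∈ T, selmerRank (tw M D) = 0 ∧ rank (tw M D) = 0) atTop
        (𝓝 (c ^ T.card)) ∧
      ∀ ε : ℝ, 0 < ε → ∀ᶠ X : ℕ in atTop,
        c ^ T.card - ε ≤ proportion (fun D => ∀ M ∈ T, Parity (tw M D)) X) ∧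
    (∀ M : ℕ, Family M → ∀ m : ℕ, Tendsto (avg fun D => (selmerRank (tw M D) : ℝ) ^ m) atTop
      (𝓝 (∑' r : ℕ, (2 * (r : ℝ)) ^ m * law r))) ∧
    1.528 < ∑' r : ℕ, (2 * (r : ℝ)) * law r ∧ ∑' r : ℕ, (2 * (r : ℝ)) * law r < 1.5292 := by
  refine ⟨tw_facts, fun D hD => ⟨vc hD, card1 hD, card2 hD, s_eq hD, (rank_le hD).1, ?_,
    parity_iff hD⟩, ⟨law_pos, law_sum, hc⟩, fun T hT => ⟨fun ρ => joint hT ρ, zero hT,
    fun ε hε => parity hT hε⟩, fun M hM m => moments hM m, mean⟩
  rw [s_eq hD]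
  exact (rank_le hD).2

end Pool.Agent.Results.MP_e2b281_nt.ExactSelmerRanksX49
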